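import Pool.Agent.H543R3.PC.Final

/-!
# The Borel complexity of: there is a complete disjoint `NP` pair
-/

namespace Pool.Agent.Results.MP_b9add9_lc.BorelComplexity

open Pool.Agent.H628R3.RO

/-- The set of oracles relative to which there is a complete disjoint `NP` pair is `Σ⁰₄`-complete. -/
theorem result : H556R2.Sigma04Complete {A : Oracle | ∃ K₀ K₁ : Set (List Bool), IsPair (IsNP A) K₀ K₁ ∧
    ∀ L₀ L₁, IsPair (IsNP A) L₀ L₁ → RedPair A L₀ L₁ K₀ K₁} :=
  Pool.Agent.H543R3.PC.dnp_complete

end Pool.Agent.Results.MP_b9add9_lc.BorelComplexity
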