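import Pool.Agent.H673R3.UC.Z3

set_option autoImplicit false

/-!
# Relative to a random oracle, no disjoint `NP` pair is hard for the pairs of a language in
`UP ∩ coUP` and its complement
-/

namespace Pool.Agent.Results.MP_b9add9_lc.RandomOracleUP

open Pool.Agent.H628R3.RO

/-- For almost every oracle `A`: for every disjoint pair `(K₀, K₁)` of languages in `NP` relative to
`A` there is a language `L` in `UP ∩ coUP` relative to `A` such that the pair of `L` and its
complement does not reduce to `(K₀, K₁)`, even if the reduction may use the oracle. -/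
theorem result : ∀ᵐ A ∂randomOracle, ∀ K₀ K₁ : Set (List Bool), IsPair (IsNP A) K₀ K₁ →
    ∃ L : Set (List Bool), IsUP A L ∧ IsUP A Lᶜ ∧ ¬ RedPair A L Lᶜ K₀ K₁ :=
  Pool.Agent.H673R3.UC.main_P

end Pool.Agent.Results.MP_b9add9_lc.RandomOracleUP
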